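import Mathlib
import Pool.Agent.Helper36.CJ.Defs

/-!
J1 for MP_58f478_ag: finiteness of `gluedModule`.
-/

open Polynomial

namespace CompJac

namespace NodalCurve

variable {k : Type} [Field k] (X : NodalCurve k)

/-- a monic polynomial of positive degree vanishing at all branch points on the component `v` -/
noncomputable def cPoly (v : X.V) : k[X] :=
  Polynomial.X * ((∏ e ∈ Finset.univ.filter fun e => X.s e = v, (Polynomial.X - C (X.p e))) *
    ∏ e ∈ Finset.univ.filter fun e => X.t e = v, (Polynomial.X - C (X.q e)))

lemma cPoly_monic (v : X.V) : (X.cPoly v).Monic := by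
  unfold cPoly
  exact monic_X.mul ((monic_prod_of_monic _ _ fun e _ => monic_X_sub_C _).mul
    (monic_prod_of_monic _ _ fun e _ => monic_X_sub_C _))

lemma cPoly_eval_p (e : X.E) : (X.cPoly (X.s e)).eval (X.p e) = 0 := by
  unfold cPoly
  rw [eval_mul, eval_mul, eval_prod]
  rw [Finset.prod_eq_zero (i := e) (by simp) (by simp)]
  ring

lemma cPoly_eval_q (e : X.E) : (X.cPoly (X.t e)).eval (X.q e) = 0 := by
  unfold cPoly
  rw [eval_mul, eval_mul, eval_prod (Finset.univ.filter fun e' => X.t e' = X.t e)]
  rw [Finset.prod_eq_zero (s := Finset.univ.filter fun e' => X.t e' = X.t e) (i := e) (by simp)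
    (by simp)]
  ring

lemma cPoly_natDegree_pos (v : X.V) : 0 < (X.cPoly v).natDegree := by
  unfold cPoly
  have h1 : ((∏ e ∈ Finset.univ.filter fun e => X.s e = v, (Polynomial.X - C (X.p e))) *
    ∏ e ∈ Finset.univ.filter fun e => X.t e = v, (Polynomial.X - C (X.q e))).Monic :=
    ((monic_prod_of_monic _ _ fun e _ => monic_X_sub_C _).mul
      (monic_prod_of_monic _ _ fun e _ => monic_X_sub_C _))
  rw [monic_X.natDegree_mul h1, natDegree_X]
  omega

/-- the family `C` as an element of the coordinate ring -/
noncomputable def cFun : X.coordRing :=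
  ⟨fun v => algebraMap k[X] (RatFunc k) (X.cPoly v), X.cPoly, fun _ => rfl, fun e => by
    rw [cPoly_eval_p, cPoly_eval_q]⟩

/-- a family of polynomials as a rational function -/
noncomputable def fam : (X.V → k[X]) →ₗ[k] X.Fun where
  toFun F := fun v => algebraMap k[X] (RatFunc k) (F v)
  map_add' F G := by funext v; simp
  map_smul' c F := by
    funext v
    rw [Pi.smul_apply, Polynomial.smul_eq_C_mul, map_mul, RingHom.id_apply, Pi.smul_apply,
      Algebra.smul_def, RatFunc.algebraMap_eq_C, RatFunc.algebraMap_C]

lemma fam_apply (F : X.V → k[X]) (v : X.V) :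
    X.fam F v = algebraMap k[X] (RatFunc k) (F v) := rfl

lemma cFun_smul_fam (F : X.V → k[X]) : X.cFun • X.fam F = X.fam (X.cPoly * F) := by
  funext v
  rw [Subalgebra.smul_def, smul_eq_mul, Pi.mul_apply]
  simp [fam_apply, cFun]

lemma cFun_smul_mem (α β : X.E → k) (F : X.V → k[X]) :
    X.cFun • X.fam F ∈ X.gluedModule α β := by
  rw [cFun_smul_fam]
  refine ⟨X.cPoly * F, fun v => rfl, fun e => ?_⟩
  rw [Pi.mul_apply, Pi.mul_apply, eval_mul, eval_mul, cPoly_eval_p, cPoly_eval_q]
  ring

/-- generators -/
noncomputable def gens : Set X.Fun :=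
  Set.range fun x : (v : X.V) × Fin (X.cPoly v).natDegree =>
    X.fam (Pi.single x.1 (Polynomial.X ^ (x.2 : ℕ)))

lemma gens_finite : X.gens.Finite := Set.finite_range _

lemma fam_single_mem_span_k (v : X.V) (F : k[X]) (hF : F.natDegree < (X.cPoly v).natDegree) :
    X.fam (Pi.single v F) ∈ Submodule.span k X.gens := by
  have h : F = ∑ i ∈ Finset.range (X.cPoly v).natDegree, F.coeff i • Polynomial.X ^ i := by
    conv_lhs => rw [F.as_sum_range' _ hF]
    exact Finset.sum_congr rfl fun i _ => by rw [← C_mul_X_pow_eq_monomial, smul_eq_C_mul]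
  have h2 : X.fam (Pi.single v F) = ∑ i ∈ Finset.range (X.cPoly v).natDegree,
      F.coeff i • X.fam (Pi.single v (Polynomial.X ^ i)) := by
    have h3 : (Pi.single v F : X.V → k[X]) = ∑ i ∈ Finset.range (X.cPoly v).natDegree,
        F.coeff i • (Pi.single v (Polynomial.X ^ i) : X.V → k[X]) := by
      conv_lhs => rw [h]
      rw [← LinearMap.single_apply (R := k), map_sum]
      refine Finset.sum_congr rfl fun i _ => ?_
      rw [map_smul]
      rfl
    rw [h3, map_sum]
    exact Finset.sum_congr rfl fun i _ => map_smul _ _ _
  rw [h2]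
  refine Submodule.sum_mem _ fun i hi => Submodule.smul_mem _ _ (Submodule.subset_span ?_)
  exact ⟨⟨v, i, Finset.mem_range.1 hi⟩, rfl⟩

/-- every single component family is generated by `gens` over the coordinate ring -/
lemma fam_single_mem_span (v : X.V) (F : k[X]) :
    X.fam (Pi.single v F) ∈ Submodule.span X.coordRing X.gens := by
  have key : ∀ n : ℕ, ∀ F : k[X], F.natDegree ≤ n →
      X.fam (Pi.single v F) ∈ Submodule.span X.coordRing X.gens := by
    intro n
    induction n with
    | zero =>
      intro F hF
      exact Submodule.span_le_restrictScalars k X.coordRing X.gens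
        (X.fam_single_mem_span_k v F (by have := X.cPoly_natDegree_pos v; omega))
    | succ n ih =>
      intro F hF
      by_cases hlt : F.natDegree < (X.cPoly v).natDegree
      · exact Submodule.span_le_restrictScalars k X.coordRing X.gens
          (X.fam_single_mem_span_k v F hlt)
      · have hm := X.cPoly_monic v
        have h1 : X.fam (Pi.single v F) =
            X.cFun • X.fam (Pi.single v (F /ₘ X.cPoly v)) +
              X.fam (Pi.single v (F %ₘ X.cPoly v)) := by
          rw [cFun_smul_fam, ← map_add]
          congr 1
          funext w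
          by_cases hw : w = v
          · subst hw
            simp only [Pi.single_eq_same, Pi.add_apply, Pi.mul_apply]
            rw [add_comm]
            exact (modByMonic_add_div F (X.cPoly w)).symm
          · simp [Pi.single_eq_of_ne hw]
        rw [h1]
        refine Submodule.add_mem _ (Submodule.smul_mem _ _ (ih _ ?_)) ?_
        · rw [natDegree_divByMonic _ hm]
          have := X.cPoly_natDegree_pos v
          omega
        · refine Submodule.span_le_restrictScalars k X.coordRing X.gens
            (X.fam_single_mem_span_k v _ ?_)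
          exact natDegree_modByMonic_lt _ hm (fun h => by
            have := X.cPoly_natDegree_pos v
            rw [h, natDegree_one] at this
            omega)
  exact key _ F le_rfl

lemma fam_mem_span (F : X.V → k[X]) : X.fam F ∈ Submodule.span X.coordRing X.gens := by
  have h : F = ∑ v, Pi.single v (F v) := (Finset.univ_sum_single F).symm
  rw [h, map_sum]
  exact Submodule.sum_mem _ fun v _ => X.fam_single_mem_span v _

theorem gluedModule_fg (α β : X.E → k) : (X.gluedModule α β).FG := by
  classical
  let MW : Submodule k X.Fun :=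
    (X.gluedModule α β).restrictScalars k ⊓ Submodule.span k X.gens
  have hfin : FiniteDimensional k (Submodule.span k X.gens) :=
    FiniteDimensional.span_of_finite k X.gens_finite
  have hMW : MW.FG := by
    have : FiniteDimensional k MW := Submodule.finiteDimensional_of_le inf_le_right
    exact (Submodule.fg_iff_finiteDimensional _).2 this
  obtain ⟨T, hT⟩ := hMW
  have hgfg : (Submodule.span X.coordRing X.gens).FG := Submodule.fg_span X.gens_finite
  have hcfg : ((Submodule.span X.coordRing X.gens).map
      (LinearMap.lsmul X.coordRing X.Fun X.cFun)).FG := hgfg.map _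
  have heq : X.gluedModule α β = (Submodule.span X.coordRing X.gens).map
      (LinearMap.lsmul X.coordRing X.Fun X.cFun) ⊔ Submodule.span X.coordRing (T : Set X.Fun) := by
    apply le_antisymm
    · rintro f ⟨F, hF, hFe⟩
      have hf : f = X.fam F := funext hF
      set Q : X.V → k[X] := fun v => F v /ₘ X.cPoly v with hQ
      set Rm : X.V → k[X] := fun v => F v %ₘ X.cPoly v with hR
      have h1 : f = X.cFun • X.fam Q + X.fam Rm := by
        rw [cFun_smul_fam, ← map_add, hf]
        congr 1
        funext w
        simp only [hQ, hR, Pi.add_apply, Pi.mul_apply]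
        rw [add_comm]
        exact (modByMonic_add_div (F w) (X.cPoly w)).symm
      have hRm : X.fam Rm ∈ Submodule.span k X.gens := by
        have h : Rm = ∑ v, Pi.single v (Rm v) := (Finset.univ_sum_single Rm).symm
        rw [h, map_sum]
        refine Submodule.sum_mem _ fun v _ => X.fam_single_mem_span_k v _ ?_
        exact natDegree_modByMonic_lt _ (X.cPoly_monic v) (fun h => by
            have := X.cPoly_natDegree_pos v
            rw [h, natDegree_one] at this
            omega)
      have hRM : X.fam Rm ∈ X.gluedModule α β := by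
        have : X.fam Rm = f - X.cFun • X.fam Q := by rw [h1]; ring
        rw [this]
        exact Submodule.sub_mem _ ⟨F, hF, hFe⟩ (X.cFun_smul_mem α β Q)
      have hmem : X.fam Rm ∈ MW := ⟨hRM, hRm⟩
      rw [← hT] at hmem
      rw [h1]
      refine Submodule.add_mem_sup ?_ (Submodule.span_le_restrictScalars k X.coordRing _ hmem)
      exact ⟨X.fam Q, X.fam_mem_span Q, rfl⟩
    · refine sup_le ?_ ?_
      · rw [Submodule.map_span, Submodule.span_le]
        rintro _ ⟨_, ⟨x, rfl⟩, rfl⟩
        exact X.cFun_smul_mem α β _
      · rw [Submodule.span_le]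
        intro x hx
        have : x ∈ MW := hT ▸ Submodule.subset_span hx
        exact this.1
  rw [heq]
  exact hcfg.sup (Submodule.fg_span T.finite_toSet)

theorem gluedModule_rank (α β : X.E → k) : ∀ v, ∃ m ∈ X.gluedModule α β, m v ≠ 0 := by
  intro v
  refine ⟨_, X.cFun_smul_mem α β 1, ?_⟩
  rw [cFun_smul_fam, fam_apply, mul_one]
  intro h
  exact (X.cPoly_monic v).ne_zero
    ((map_eq_zero_iff _ (RatFunc.algebraMap_injective k)).1 h)

end NodalCurve

end CompJac
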