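import Mathlib

set_option autoImplicit false

/-!
Finite product-Bernoulli expectations written as sums over a powerset, discrete derivatives,
a Russo type derivative formula and an OSSS type covariance inequality for closure processes.
-/

namespace Pool.Agent.Helper99.Boot

open Finset

variable {α : Type*} [DecidableEq α]

/-- Expectation of `h` over a random subset of `U` whose elements are kept independently with
probability `o`. -/
noncomputable def EV (o : ℝ) (U : Finset α) (h : Finset α → ℝ) : ℝ :=
  ∑ ω ∈ U.powerset, o ^ ω.card * (1 - o) ^ (U.card - ω.card) * h ω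

/-- Discrete derivative in the coordinate `x`. -/
def D (x : α) (h : Finset α → ℝ) (ω : Finset α) : ℝ := h (insert x ω) - h (ω.erase x)

lemma EV_empty (o : ℝ) (h : Finset α → ℝ) : EV o ∅ h = h ∅ := by
  simp [EV]

lemma EV_insert (o : ℝ) {U : Finset α} {x : α} (hx : x ∉ U) (h : Finset α → ℝ) :
    EV o (insert x U) h
      = (1 - o) * EV o U h + o * EV o U (fun ω => h (insert x ω)) := by
  unfold EV
  rw [Finset.sum_powerset_insert hx, Finset.mul_sum, Finset.mul_sum]
  congr 1
  · apply Finset.sum_congr rfl
    intro ω hω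
    have hsub : ω ⊆ U := Finset.mem_powerset.mp hω
    have hle : ω.card ≤ U.card := Finset.card_le_card hsub
    rw [Finset.card_insert_of_notMem hx, Nat.succ_sub hle, pow_succ]
    ring
  · apply Finset.sum_congr rfl
    intro ω hω
    have hsub : ω ⊆ U := Finset.mem_powerset.mp hω
    have hxω : x ∉ ω := fun hh => hx (hsub hh)
    rw [Finset.card_insert_of_notMem hx, Finset.card_insert_of_notMem hxω,
      Nat.succ_sub_succ, pow_succ]
    ring

lemma EV_congr (o : ℝ) {U : Finset α} {h h' : Finset α → ℝ} (H : ∀ ω, ω ⊆ U → h ω = h' ω) :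
    EV o U h = EV o U h' := by
  unfold EV
  apply Finset.sum_congr rfl
  intro ω hω
  rw [H ω (Finset.mem_powerset.mp hω)]

lemma EV_mono {o : ℝ} (h0 : 0 ≤ o) (h1 : o ≤ 1) {U : Finset α} {h h' : Finset α → ℝ}
    (H : ∀ ω, ω ⊆ U → h ω ≤ h' ω) : EV o U h ≤ EV o U h' := by
  unfold EV
  apply Finset.sum_le_sum
  intro ω hω
  apply mul_le_mul_of_nonneg_left (H ω (Finset.mem_powerset.mp hω))
  have : 0 ≤ 1 - o := by linarith
  positivity

lemma EV_add (o : ℝ) (U : Finset α) (h h' : Finset α → ℝ) :
    EV o U (fun ω => h ω + h' ω) = EV o U h + EV o U h' := by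
  unfold EV
  rw [← Finset.sum_add_distrib]
  apply Finset.sum_congr rfl
  intro ω _
  ring

lemma EV_sub (o : ℝ) (U : Finset α) (h h' : Finset α → ℝ) :
    EV o U (fun ω => h ω - h' ω) = EV o U h - EV o U h' := by
  unfold EV
  rw [← Finset.sum_sub_distrib]
  apply Finset.sum_congr rfl
  intro ω _
  ring

lemma EV_mul_left (o : ℝ) (U : Finset α) (c : ℝ) (h : Finset α → ℝ) :
    EV o U (fun ω => c * h ω) = c * EV o U h := by
  unfold EV
  rw [Finset.mul_sum]
  apply Finset.sum_congr rfl
  intro ω _
  ring

lemma EV_sum {ι : Type*} (o : ℝ) (U : Finset α) (I : Finset ι) (h : ι → Finset α → ℝ) :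
    EV o U (fun ω => ∑ i ∈ I, h i ω) = ∑ i ∈ I, EV o U (h i) := by
  unfold EV
  rw [Finset.sum_comm]
  apply Finset.sum_congr rfl
  intro ω _
  rw [Finset.mul_sum]

lemma EV_const (o : ℝ) (U : Finset α) (c : ℝ) : EV o U (fun _ => c) = c := by
  induction U using Finset.induction_on with
  | empty => simp [EV_empty]
  | insert x U hx ih => rw [EV_insert o hx, ih]; ring

lemma EV_nonneg {o : ℝ} (h0 : 0 ≤ o) (h1 : o ≤ 1) {U : Finset α} {h : Finset α → ℝ}
    (H : ∀ ω, ω ⊆ U → 0 ≤ h ω) : 0 ≤ EV o U h := by
  have := EV_mono h0 h1 (h := fun _ => (0 : ℝ)) (h' := h) H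
  rwa [EV_const] at this

lemma EV_swap {β : Type*} [DecidableEq β] (s o : ℝ) (U : Finset α) (V : Finset β)
    (f : Finset α → Finset β → ℝ) :
    EV s U (fun σ => EV o V (fun ω => f σ ω)) = EV o V (fun ω => EV s U (fun σ => f σ ω)) := by
  unfold EV
  simp_rw [Finset.mul_sum]
  rw [Finset.sum_comm]
  apply Finset.sum_congr rfl
  intro ω _
  apply Finset.sum_congr rfl
  intro σ _
  ring

/-- The derivative `D x` does not depend on the coordinate `x`. -/
lemma EV_insert_D (o : ℝ) {U : Finset α} {x : α} (hx : x ∉ U) (g : Finset α → ℝ) :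
    EV o (insert x U) (fun ω => |D x g ω|) = EV o U (fun ω => |g (insert x ω) - g ω|) := by
  rw [EV_insert o hx]
  have e1 : EV o U (fun ω => |D x g ω|) = EV o U (fun ω => |g (insert x ω) - g ω|) := by
    apply EV_congr
    intro ω hω
    have : x ∉ ω := fun hh => hx (hω hh)
    simp [D, Finset.erase_eq_of_notMem this]
  have e2 : EV o U (fun ω => |D x g (insert x ω)|)
      = EV o U (fun ω => |g (insert x ω) - g ω|) := by
    apply EV_congr
    intro ω hω
    have : x ∉ ω := fun hh => hx (hω hh)
    simp [D, Finset.erase_insert this]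
  rw [e1, e2]
  ring

lemma D_comb (o : ℝ) {x y : α} (hxy : y ≠ x) (g : Finset α → ℝ) (ω : Finset α) :
    D y (fun ω => (1 - o) * g ω + o * g (insert x ω)) ω
      = (1 - o) * D y g ω + o * D y g (insert x ω) := by
  unfold D
  rw [Finset.erase_insert_of_ne hxy.symm, Finset.insert_comm y x]
  ring

/-- Bootstrap closure of `A` inside `A ∪ ω` for the activation rule `act`. -/
def Cl (act : α → Set α → Prop) (A : Set α) (ω : Finset α) : Set α :=
  {x | ∀ B : Set α, A ⊆ B → (∀ y ∈ ω, act y B → y ∈ B) → x ∈ B}

lemma subset_Cl (act : α → Set α → Prop) (A : Set α) (ω : Finset α) : A ⊆ Cl act A ω :=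
  fun _ hx _ hB _ => hB hx

lemma Cl_subset {act : α → Set α → Prop} {A B : Set α} {ω : Finset α} (hAB : A ⊆ B)
    (hcl : ∀ y ∈ ω, act y B → y ∈ B) : Cl act A ω ⊆ B :=
  fun _ hx => hx B hAB hcl

lemma Cl_closed {act : α → Set α → Prop} (hact : ∀ x B B', B ⊆ B' → act x B → act x B')
    (A : Set α) (ω : Finset α) : ∀ y ∈ ω, act y (Cl act A ω) → y ∈ Cl act A ω := by
  intro y hy ha B hAB hcl
  exact hcl y hy (hact y _ _ (Cl_subset hAB hcl) ha)

lemma Cl_insert_active {act : α → Set α → Prop} (hact : ∀ x B B', B ⊆ B' → act x B → act x B')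
    {A : Set α} {x : α} (hx : act x A) (ω : Finset α) :
    Cl act A (insert x ω) = Cl act (insert x A) ω := by
  apply Set.Subset.antisymm
  · apply Cl_subset
    · exact (Set.subset_insert x A).trans (subset_Cl act _ ω)
    · intro y hy ha
      rcases Finset.mem_insert.mp hy with rfl | hy'
      · exact subset_Cl act _ ω (Set.mem_insert _ _)
      · exact Cl_closed hact _ ω y hy' ha
  · apply Cl_subset
    · rw [Set.insert_subset_iff]
      refine ⟨?_, subset_Cl act _ _⟩
      apply Cl_closed hact _ _ x (Finset.mem_insert_self x ω)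
      exact hact x _ _ (subset_Cl act A _) hx
    · intro y hy ha
      exact Cl_closed hact _ _ y (Finset.mem_insert_of_mem hy) ha

lemma Cl_eq_self {act : α → Set α → Prop} {A : Set α} {ω : Finset α}
    (h : ∀ y ∈ ω, ¬ act y A) : Cl act A ω = A :=
  Set.Subset.antisymm (Cl_subset subset_rfl (fun y hy ha => absurd ha (h y hy)))
    (subset_Cl act A ω)

lemma Cl_mono {act act' : α → Set α → Prop}
    (hact' : ∀ x B B', B ⊆ B' → act' x B → act' x B')
    (hle : ∀ x B, act x B → act' x B) {A A' : Set α} (hA : A ⊆ A') {ω ω' : Finset α}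
    (hω : ω ⊆ ω') : Cl act A ω ⊆ Cl act' A' ω' := by
  apply Cl_subset (hA.trans (subset_Cl act' A' ω'))
  intro y hy ha
  exact Cl_closed hact' A' ω' y (hω hy) (hle _ _ ha)

open Classical in
/-- `0/1` indicator of a proposition. -/
noncomputable def ind (P : Prop) : ℝ := if P then 1 else 0

lemma ind_true {P : Prop} (h : P) : ind P = 1 := by simp [ind, h]
lemma ind_false {P : Prop} (h : ¬ P) : ind P = 0 := by simp [ind, h]
lemma ind_nonneg (P : Prop) : 0 ≤ ind P := by unfold ind; split_ifs <;> norm_num
lemma ind_le_one (P : Prop) : ind P ≤ 1 := by unfold ind; split_ifs <;> norm_num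
lemma ind_mono {P Q : Prop} (h : P → Q) : ind P ≤ ind Q := by
  by_cases hP : P
  · rw [ind_true hP, ind_true (h hP)]
  · rw [ind_false hP]; exact ind_nonneg Q
lemma ind_mul_self (P : Prop) : ind P * ind P = ind P := by
  unfold ind; split_ifs <;> norm_num

/-- OSSS type inequality for an exploration of a closure process. -/
theorem osss {o : ℝ} (h0 : 0 ≤ o) (h1 : o ≤ 1) {act : α → Set α → Prop}
    (hact : ∀ x B B', B ⊆ B' → act x B → act x B') (F : Set α → ℝ)
    (hF0 : ∀ B, 0 ≤ F B) (hF1 : ∀ B, F B ≤ 1) :
    ∀ (U : Finset α) (A : Set α) (g : Finset α → ℝ),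
      EV o U (fun ω => F (Cl act A ω) * g ω)
        ≤ EV o U (fun ω => F (Cl act A ω)) * EV o U g
          + (1 - o) * ∑ x ∈ U, EV o U (fun ω => ind (x ∈ Cl act A ω))
              * EV o U (fun ω => |D x g ω|) := by
  intro U
  induction U using Finset.strongInduction with
  | H U ih =>
    intro A g
    have h1o : 0 ≤ 1 - o := by linarith
    by_cases hex : ∃ x ∈ U, act x A
    · obtain ⟨x, hxU, hxA⟩ := hex
      have hx' : x ∉ U.erase x := Finset.notMem_erase x U
      have hU : insert x (U.erase x) = U := Finset.insert_erase hxU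
      have hss : U.erase x ⊂ U := Finset.erase_ssubset hxU
      set U' := U.erase x with hU'
      -- abbreviations
      set gb : Finset α → ℝ := fun ω => (1 - o) * g ω + o * g (insert x ω) with hgb
      have IH0 := ih U' hss A gb
      have IH1 := ih U' hss (insert x A) gb
      have hins : ∀ ω, Cl act A (insert x ω) = Cl act (insert x A) ω :=
        fun ω => Cl_insert_active hact hxA ω
      -- rewrite everything over `insert x U'`
      rw [← hU]
      rw [EV_insert o hx', EV_insert o hx' (fun ω => F (Cl act A ω)), EV_insert o hx' g,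
        Finset.sum_insert hx']
      simp only [hins]
      set F0 := EV o U' (fun ω => F (Cl act A ω)) with hF0d
      set F1 := EV o U' (fun ω => F (Cl act (insert x A) ω)) with hF1d
      have hEgb : EV o U' gb = (1 - o) * EV o U' g + o * EV o U' (fun ω => g (insert x ω)) := by
        rw [hgb, EV_add, EV_mul_left, EV_mul_left]
      -- main decomposition
      have hmain : (1 - o) * EV o U' (fun ω => F (Cl act A ω) * g ω)
          + o * EV o U' (fun ω => F (Cl act (insert x A) ω) * g (insert x ω))
          = (1 - o) * EV o U' (fun ω => F (Cl act A ω) * gb ω)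
            + o * EV o U' (fun ω => F (Cl act (insert x A) ω) * gb ω)
            + o * (1 - o) * EV o U' (fun ω => (F (Cl act (insert x A) ω) - F (Cl act A ω))
                * (g (insert x ω) - g ω)) := by
        rw [← EV_mul_left, ← EV_mul_left, ← EV_mul_left, ← EV_mul_left, ← EV_mul_left,
          ← EV_add, ← EV_add, ← EV_add]
        apply EV_congr
        intro ω _
        simp only [hgb]
        ring
      have hthird : EV o U' (fun ω => (F (Cl act (insert x A) ω) - F (Cl act A ω))
                * (g (insert x ω) - g ω)) ≤ EV o U' (fun ω => |g (insert x ω) - g ω|) := by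
        apply EV_mono h0 h1
        intro ω _
        have ha : |F (Cl act (insert x A) ω) - F (Cl act A ω)| ≤ 1 := by
          rw [abs_le]
          constructor
          · linarith [hF0 (Cl act (insert x A) ω), hF1 (Cl act A ω)]
          · linarith [hF1 (Cl act (insert x A) ω), hF0 (Cl act A ω)]
        calc (F (Cl act (insert x A) ω) - F (Cl act A ω)) * (g (insert x ω) - g ω)
            ≤ |(F (Cl act (insert x A) ω) - F (Cl act A ω)) * (g (insert x ω) - g ω)| :=
              le_abs_self _
          _ = |F (Cl act (insert x A) ω) - F (Cl act A ω)| * |g (insert x ω) - g ω| :=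
              abs_mul _ _
          _ ≤ 1 * |g (insert x ω) - g ω| :=
              mul_le_mul_of_nonneg_right ha (abs_nonneg _)
          _ = |g (insert x ω) - g ω| := one_mul _
      -- the term for `x`
      have hxterm : o ≤ EV o (insert x U') (fun ω => ind (x ∈ Cl act A ω)) := by
        rw [EV_insert o hx']
        have e1 : EV o U' (fun ω => ind (x ∈ Cl act A (insert x ω))) = 1 := by
          rw [← EV_const o U' (1 : ℝ)]
          apply EV_congr
          intro ω _
          apply ind_true
          rw [hins]
          exact subset_Cl act _ ω (Set.mem_insert _ _)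
        have e2 : 0 ≤ EV o U' (fun ω => ind (x ∈ Cl act A ω)) :=
          EV_nonneg h0 h1 (fun ω _ => ind_nonneg _)
        rw [e1]
        nlinarith
      have hDx : EV o (insert x U') (fun ω => |D x g ω|)
          = EV o U' (fun ω => |g (insert x ω) - g ω|) := EV_insert_D o hx' g
      have hDxnn : 0 ≤ EV o U' (fun ω => |g (insert x ω) - g ω|) :=
        EV_nonneg h0 h1 (fun ω _ => abs_nonneg _)
      -- the other terms
      have hyterm : ∀ y ∈ U', EV o (insert x U') (fun ω => ind (y ∈ Cl act A ω))
          = (1 - o) * EV o U' (fun ω => ind (y ∈ Cl act A ω))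
            + o * EV o U' (fun ω => ind (y ∈ Cl act (insert x A) ω)) := by
        intro y _
        rw [EV_insert o hx']
        simp only [hins]
      have hDy : ∀ y ∈ U', EV o U' (fun ω => |D y gb ω|)
          ≤ EV o (insert x U') (fun ω => |D y g ω|) := by
        intro y hy
        have hyx : y ≠ x := fun h => hx' (h ▸ hy)
        rw [EV_insert o hx', ← EV_mul_left, ← EV_mul_left, ← EV_add]
        apply EV_mono h0 h1
        intro ω _
        rw [hgb, D_comb o hyx g ω]
        calc |(1 - o) * D y g ω + o * D y g (insert x ω)|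
            ≤ |(1 - o) * D y g ω| + |o * D y g (insert x ω)| := abs_add_le _ _
          _ = (1 - o) * |D y g ω| + o * |D y g (insert x ω)| := by
              rw [abs_mul, abs_mul, abs_of_nonneg h1o, abs_of_nonneg h0]
      -- sums
      have hsum : (1 - o) * (∑ y ∈ U', EV o U' (fun ω => ind (y ∈ Cl act A ω))
              * EV o U' (fun ω => |D y gb ω|))
            + o * (∑ y ∈ U', EV o U' (fun ω => ind (y ∈ Cl act (insert x A) ω))
              * EV o U' (fun ω => |D y gb ω|))
            ≤ ∑ y ∈ U', EV o (insert x U') (fun ω => ind (y ∈ Cl act A ω))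
              * EV o (insert x U') (fun ω => |D y g ω|) := by
        rw [Finset.mul_sum, Finset.mul_sum, ← Finset.sum_add_distrib]
        apply Finset.sum_le_sum
        intro y hy
        rw [hyterm y hy]
        have hp : 0 ≤ (1 - o) * EV o U' (fun ω => ind (y ∈ Cl act A ω))
            + o * EV o U' (fun ω => ind (y ∈ Cl act (insert x A) ω)) := by
          have a1 : 0 ≤ EV o U' (fun ω => ind (y ∈ Cl act A ω)) :=
            EV_nonneg h0 h1 (fun ω _ => ind_nonneg _)
          have a2 : 0 ≤ EV o U' (fun ω => ind (y ∈ Cl act (insert x A) ω)) :=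
            EV_nonneg h0 h1 (fun ω _ => ind_nonneg _)
          positivity
        calc (1 - o) * (EV o U' (fun ω => ind (y ∈ Cl act A ω)) * EV o U' (fun ω => |D y gb ω|))
              + o * (EV o U' (fun ω => ind (y ∈ Cl act (insert x A) ω))
                * EV o U' (fun ω => |D y gb ω|))
            = ((1 - o) * EV o U' (fun ω => ind (y ∈ Cl act A ω))
              + o * EV o U' (fun ω => ind (y ∈ Cl act (insert x A) ω)))
                * EV o U' (fun ω => |D y gb ω|) := by ring
          _ ≤ _ := mul_le_mul_of_nonneg_left (hDy y hy) hp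
      have hxx : o * EV o U' (fun ω => |g (insert x ω) - g ω|)
          ≤ EV o (insert x U') (fun ω => ind (x ∈ Cl act A ω))
            * EV o (insert x U') (fun ω => |D x g ω|) := by
        rw [hDx]
        exact mul_le_mul_of_nonneg_right hxterm hDxnn
      rw [hmain]
      rw [hEgb] at IH0 IH1
      set E0 := EV o U' g
      set E1 := EV o U' (fun ω => g (insert x ω))
      set S0 := ∑ y ∈ U', EV o U' (fun ω => ind (y ∈ Cl act A ω))
              * EV o U' (fun ω => |D y gb ω|)
      set S1 := ∑ y ∈ U', EV o U' (fun ω => ind (y ∈ Cl act (insert x A) ω))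
              * EV o U' (fun ω => |D y gb ω|)
      set S := ∑ y ∈ U', EV o (insert x U') (fun ω => ind (y ∈ Cl act A ω))
              * EV o (insert x U') (fun ω => |D y g ω|)
      set T := EV o U' (fun ω => |g (insert x ω) - g ω|)
      set X := EV o (insert x U') (fun ω => ind (x ∈ Cl act A ω))
            * EV o (insert x U') (fun ω => |D x g ω|)
      have k0 := mul_le_mul_of_nonneg_left IH0 h1o
      have k1 := mul_le_mul_of_nonneg_left IH1 h0
      have k2 := mul_le_mul_of_nonneg_left hthird (mul_nonneg h0 h1o)
      have k3 := mul_le_mul_of_nonneg_left hsum h1o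
      have k4 := mul_le_mul_of_nonneg_left hxx h1o
      nlinarith [k0, k1, k2, k3, k4]
    · push Not at hex
      have hcl : ∀ ω, ω ⊆ U → Cl act A ω = A := by
        intro ω hω
        exact Cl_eq_self (fun y hy => hex y (hω hy))
      have e1 : EV o U (fun ω => F (Cl act A ω) * g ω) = F A * EV o U g := by
        rw [← EV_mul_left]
        apply EV_congr
        intro ω hω
        rw [hcl ω hω]
      have e2 : EV o U (fun ω => F (Cl act A ω)) = F A := by
        rw [← EV_const o U (F A)]
        apply EV_congr
        intro ω hω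
        rw [hcl ω hω]
      rw [e1, e2]
      have : 0 ≤ (1 - o) * ∑ x ∈ U, EV o U (fun ω => ind (x ∈ Cl act A ω))
              * EV o U (fun ω => |D x g ω|) := by
        apply mul_nonneg h1o
        apply Finset.sum_nonneg
        intro x _
        apply mul_nonneg
        · exact EV_nonneg h0 h1 (fun ω _ => ind_nonneg _)
        · exact EV_nonneg h0 h1 (fun ω _ => abs_nonneg _)
      linarith

end Pool.Agent.Helper99.Boot
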