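import Mathlib
import Pool.Agent.Helper99.BootEV

set_option autoImplicit false
set_option linter.unusedSectionVars false

/-!
The finite volume differential inequality and its integration along a curve.
-/

namespace Pool.Agent.Helper99.Boot

open Finset

variable {α : Type*} [DecidableEq α]

/-- Activation: either marked, or activated by the rule. -/
def act (rule : α → Set α → Prop) (σ : Set α) (x : α) (B : Set α) : Prop := x ∈ σ ∨ rule x B

lemma act_mono {rule : α → Set α → Prop} (hr : ∀ x B B', B ⊆ B' → rule x B → rule x B')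
    (σ : Set α) : ∀ x B B', B ⊆ B' → act rule σ x B → act rule σ x B' := by
  intro x B B' hB h
  rcases h with h | h
  · exact Or.inl h
  · exact Or.inr (hr x B B' hB h)

/-- Indicator that `z` gets infected. -/
noncomputable def fz (rule : α → Set α → Prop) (z : α) (σ : Set α) (ω : Finset α) : ℝ :=
  ind (z ∈ Cl (act rule σ) ∅ ω)

/-- Finite volume infection probability of `z`. -/
noncomputable def phiF (rule : α → Set α → Prop) (V : Finset α) (z : α) (s o : ℝ) : ℝ :=
  EV s V (fun σ => EV o V (fun ω => fz rule z (σ : Set α) ω))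

lemma fz_nonneg (rule : α → Set α → Prop) (z : α) (σ : Set α) (ω : Finset α) :
    0 ≤ fz rule z σ ω := ind_nonneg _
lemma fz_le_one (rule : α → Set α → Prop) (z : α) (σ : Set α) (ω : Finset α) :
    fz rule z σ ω ≤ 1 := ind_le_one _

lemma fz_mono {rule : α → Set α → Prop} (hr : ∀ x B B', B ⊆ B' → rule x B → rule x B') (z : α)
    {σ σ' : Set α} (hσ : σ ⊆ σ') {ω ω' : Finset α} (hω : ω ⊆ ω') :
    fz rule z σ ω ≤ fz rule z σ' ω' := by
  apply ind_mono
  intro h
  exact Cl_mono (act_mono hr σ') (fun x B h => h.imp (fun h' => hσ h') id) subset_rfl hω h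

lemma EV_mem (s : ℝ) (V : Finset α) {x : α} (hx : x ∈ V) :
    EV s V (fun σ => ind (x ∈ (σ : Set α))) = s := by
  have hx' : x ∉ V.erase x := Finset.notMem_erase x V
  rw [← Finset.insert_erase hx, EV_insert s hx']
  have e1 : EV s (V.erase x) (fun σ => ind (x ∈ (σ : Set α))) = 0 := by
    rw [← EV_const s (V.erase x) (0 : ℝ)]
    apply EV_congr
    intro ω hω
    apply ind_false
    intro h
    exact hx' (hω (by simpa using h))
  have e2 : EV s (V.erase x) (fun σ => ind (x ∈ ((insert x σ : Finset α) : Set α))) = 1 := by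
    rw [← EV_const s (V.erase x) (1 : ℝ)]
    apply EV_congr
    intro ω _
    apply ind_true
    simp
  rw [e1, e2]; ring

lemma Cl_true (σ : Finset α) : Cl (fun (_ : α) (_ : Set α) => True) (∅ : Set α) σ = (σ : Set α) := by
  apply Set.Subset.antisymm
  · exact Cl_subset (Set.empty_subset _) (fun y hy _ => by simpa using hy)
  · intro y hy B _ hcl
    exact hcl y (by simpa using hy) trivial

/-- Full-information version of the covariance inequality. -/
lemma cov_full {s : ℝ} (h0 : 0 ≤ s) (h1 : s ≤ 1) (V : Finset α) (F : Set α → ℝ)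
    (hF0 : ∀ B, 0 ≤ F B) (hF1 : ∀ B, F B ≤ 1) (g : Finset α → ℝ) :
    EV s V (fun σ => F (σ : Set α) * g σ)
      ≤ EV s V (fun σ => F (σ : Set α)) * EV s V g
        + s * (1 - s) * ∑ x ∈ V, EV s V (fun σ => |D x g σ|) := by
  have h := osss h0 h1 (act := fun (_ : α) (_ : Set α) => True) (fun _ _ _ _ h => h) F hF0 hF1
    V ∅ g
  simp only [Cl_true] at h
  refine h.trans (le_of_eq ?_)
  congr 1
  rw [mul_comm s (1 - s), mul_assoc]
  congr 1
  rw [Finset.mul_sum]
  apply Finset.sum_congr rfl
  intro x hx
  rw [EV_mem s V hx]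

/-- The finite volume differential inequality (in terms of discrete derivatives). -/
theorem two_level {rule : α → Set α → Prop}
    (hr : ∀ x B B', B ⊆ B' → rule x B → rule x B') {s o : ℝ}
    (hs0 : 0 ≤ s) (hs1 : s ≤ 1) (ho0 : 0 ≤ o) (ho1 : o ≤ 1) (V : Finset α) (z : α) :
    phiF rule V z s o - phiF rule V z s o * phiF rule V z s o
      ≤ s * (1 - s) * ∑ x ∈ V, EV s V (D x (fun σ => EV o V (fun ω => fz rule z (σ : Set α) ω)))
        + (1 - o) * ∑ x ∈ V, phiF rule V x s o
            * EV s V (fun σ => EV o V (D x (fun ω => fz rule z (σ : Set α) ω))) := by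
  set gb : Finset α → ℝ := fun ω => EV s V (fun σ => fz rule z (σ : Set α) ω) with hgb
  have h1o : 0 ≤ 1 - o := by linarith
  have h1s : 0 ≤ 1 - s := by linarith
  have hphi : phiF rule V z s o = EV o V gb := by
    rw [phiF, EV_swap]
  -- first step
  have step1 : phiF rule V z s o ≤ EV o V (fun ω => gb ω * gb ω)
      + s * (1 - s) * ∑ x ∈ V, EV s V (D x (fun σ => EV o V (fun ω => fz rule z (σ : Set α) ω))) := by
    have e1 : phiF rule V z s o
        = EV o V (fun ω => EV s V (fun σ => fz rule z (σ : Set α) ω * fz rule z (σ : Set α) ω)) := by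
      rw [phiF, EV_swap]
      apply EV_congr
      intro ω _
      apply EV_congr
      intro σ _
      rw [fz, ind_mul_self]
    rw [e1]
    have e2 : ∀ ω, ω ⊆ V → EV s V (fun σ => fz rule z (σ : Set α) ω * fz rule z (σ : Set α) ω)
        ≤ gb ω * gb ω + s * (1 - s) * ∑ x ∈ V, EV s V (D x (fun σ => fz rule z (σ : Set α) ω)) := by
      intro ω _
      have h := cov_full hs0 hs1 V (fun σ => fz rule z σ ω) (fun B => fz_nonneg _ _ _ _)
        (fun B => fz_le_one _ _ _ _) (fun σ => fz rule z (σ : Set α) ω)
      refine h.trans (le_of_eq ?_)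
      congr 2
      apply Finset.sum_congr rfl
      intro x _
      apply EV_congr
      intro σ _
      apply abs_of_nonneg
      unfold D
      have : fz rule z ((σ.erase x : Finset α) : Set α) ω
          ≤ fz rule z ((insert x σ : Finset α) : Set α) ω := by
        apply fz_mono hr z _ subset_rfl
        intro y hy
        have : y ∈ σ.erase x := by exact_mod_cast hy
        have : y ∈ insert x σ := Finset.mem_insert_of_mem (Finset.mem_of_mem_erase this)
        simpa using this
      linarith
    refine (EV_mono ho0 ho1 e2).trans (le_of_eq ?_)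
    rw [EV_add, EV_mul_left, EV_sum]
    congr 2
    apply Finset.sum_congr rfl
    intro x _
    rw [EV_swap]
    apply EV_congr
    intro σ _
    unfold D
    rw [EV_sub]
  -- second step
  have step2 : EV o V (fun ω => gb ω * gb ω) ≤ phiF rule V z s o * phiF rule V z s o
      + (1 - o) * ∑ x ∈ V, phiF rule V x s o
            * EV s V (fun σ => EV o V (D x (fun ω => fz rule z (σ : Set α) ω))) := by
    have e1 : EV o V (fun ω => gb ω * gb ω)
        = EV s V (fun σ => EV o V (fun ω => fz rule z (σ : Set α) ω * gb ω)) := by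
      rw [EV_swap]
      apply EV_congr
      intro ω _
      have : EV s V (fun σ => fz rule z (σ : Set α) ω * gb ω)
          = EV s V (fun σ => gb ω * fz rule z (σ : Set α) ω) := by
        apply EV_congr
        intro σ _
        ring
      rw [this, EV_mul_left]
    rw [e1]
    have hD : ∀ x ∈ V, EV o V (fun ω => |D x gb ω|)
        ≤ EV s V (fun σ => EV o V (D x (fun ω => fz rule z (σ : Set α) ω))) := by
      intro x _
      rw [EV_swap]
      apply EV_mono ho0 ho1
      intro ω _
      have : D x gb ω = EV s V (fun σ => D x (fun ω => fz rule z (σ : Set α) ω) ω) := by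
        unfold D
        rw [hgb, EV_sub]
      rw [this]
      apply le_of_eq
      apply abs_of_nonneg
      apply EV_nonneg hs0 hs1
      intro σ _
      unfold D
      have : fz rule z (σ : Set α) (ω.erase x) ≤ fz rule z (σ : Set α) (insert x ω) := by
        apply fz_mono hr z subset_rfl
        exact (Finset.erase_subset x ω).trans (Finset.subset_insert x ω)
      linarith
    have e2 : ∀ σ : Finset α, σ ⊆ V → EV o V (fun ω => fz rule z (σ : Set α) ω * gb ω)
        ≤ phiF rule V z s o * EV o V (fun ω => fz rule z (σ : Set α) ω)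
          + (1 - o) * ∑ x ∈ V, EV s V (fun σ => EV o V (D x (fun ω => fz rule z (σ : Set α) ω)))
            * EV o V (fun ω => fz rule x (σ : Set α) ω) := by
      intro σ _
      have h := osss ho0 ho1 (act := act rule (σ : Set α)) (act_mono hr _)
        (fun B => ind (z ∈ B)) (fun B => ind_nonneg _) (fun B => ind_le_one _) V ∅ gb
      refine h.trans ?_
      rw [hphi, mul_comm (EV o V gb)]
      apply add_le_add (le_of_eq rfl)
      apply mul_le_mul_of_nonneg_left _ h1o
      apply Finset.sum_le_sum
      intro x hx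
      rw [mul_comm]
      apply mul_le_mul_of_nonneg_right (hD x hx)
      exact EV_nonneg ho0 ho1 (fun ω _ => ind_nonneg _)
    refine (EV_mono hs0 hs1 e2).trans (le_of_eq ?_)
    rw [EV_add, EV_mul_left, EV_mul_left, EV_sum]
    congr 2
    apply Finset.sum_congr rfl
    intro x _
    rw [EV_mul_left, mul_comm]
    rfl
  linarith

/-- Russo type formula along a curve. -/
theorem hasDerivAt_EV {s : ℝ → ℝ} {s' t : ℝ} (hs : HasDerivAt s s' t) (V : Finset α) :
    ∀ (h : ℝ → Finset α → ℝ) (h' : Finset α → ℝ),
      (∀ ω, HasDerivAt (fun u => h u ω) (h' ω) t) →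
      HasDerivAt (fun u => EV (s u) V (h u))
        (s' * ∑ x ∈ V, EV (s t) V (D x (h t)) + EV (s t) V h') t := by
  induction V using Finset.induction_on with
  | empty =>
    intro h h' hh
    simp only [EV_empty, Finset.sum_empty, mul_zero, zero_add]
    exact hh ∅
  | insert x V hx ih =>
    intro h h' hh
    have e : (fun u => EV (s u) (insert x V) (h u))
        = fun u => (1 - s u) * EV (s u) V (h u) + s u * EV (s u) V (fun ω => h u (insert x ω)) := by
      funext u
      rw [EV_insert (s u) hx]
    rw [e]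
    have d0 := ih h h' hh
    have d1 := ih (fun u ω => h u (insert x ω)) (fun ω => h' (insert x ω))
      (fun ω => hh (insert x ω))
    have hs1 : HasDerivAt (fun u => 1 - s u) (-s') t := by
      simpa using hs.const_sub 1
    have dd := (hs1.mul d0).add (hs.mul d1)
    refine dd.congr_deriv ?_
    rw [Finset.sum_insert hx, EV_insert (s t) hx (D x (h t)), EV_insert (s t) hx h']
    have a1 : EV (s t) V (D x (h t)) = EV (s t) V (fun ω => h t (insert x ω)) - EV (s t) V (h t) := by
      rw [← EV_sub]
      apply EV_congr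
      intro ω hω
      have : x ∉ ω := fun hh => hx (hω hh)
      simp [D, Finset.erase_eq_of_notMem this]
    have a2 : EV (s t) V (fun ω => D x (h t) (insert x ω))
        = EV (s t) V (fun ω => h t (insert x ω)) - EV (s t) V (h t) := by
      rw [← EV_sub]
      apply EV_congr
      intro ω hω
      have : x ∉ ω := fun hh => hx (hω hh)
      simp [D, Finset.erase_insert this]
    have a3 : ∑ y ∈ V, EV (s t) (insert x V) (D y (h t))
        = (1 - s t) * ∑ y ∈ V, EV (s t) V (D y (h t))
          + s t * ∑ y ∈ V, EV (s t) V (D y (fun ω => h t (insert x ω))) := by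
      rw [Finset.mul_sum, Finset.mul_sum, ← Finset.sum_add_distrib]
      apply Finset.sum_congr rfl
      intro y hy
      have hyx : y ≠ x := fun hh => hx (hh ▸ hy)
      rw [EV_insert (s t) hx]
      congr 2
      apply EV_congr
      intro ω _
      unfold D
      rw [Finset.erase_insert_of_ne hyx.symm, Finset.insert_comm y x]
    rw [a1, a2, a3]
    ring

lemma EV_mono_param {o o' : ℝ} (h0 : 0 ≤ o) (hoo : o ≤ o') (h1 : o' ≤ 1) (U : Finset α) :
    ∀ (h : Finset α → ℝ), (∀ ω ω', ω ⊆ ω' → h ω ≤ h ω') → EV o U h ≤ EV o' U h := by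
  induction U using Finset.induction_on with
  | empty => intro h _; simp [EV_empty]
  | insert x U hx ih =>
    intro h hm
    rw [EV_insert o hx, EV_insert o' hx]
    have i1 := ih h hm
    have i2 := ih (fun ω => h (insert x ω)) (fun ω ω' hω => hm _ _ (Finset.insert_subset_insert x hω))
    have i3 : EV o' U h ≤ EV o' U (fun ω => h (insert x ω)) :=
      EV_mono (h0.trans hoo) h1 (fun ω _ => hm _ _ (Finset.subset_insert x ω))
    have ho1 : o ≤ 1 := hoo.trans h1
    have k1 := mul_le_mul_of_nonneg_left i1 (by linarith : (0 : ℝ) ≤ 1 - o)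
    have k2 := mul_le_mul_of_nonneg_left i2 h0
    have k3 := mul_le_mul_of_nonneg_left i3 (by linarith : (0 : ℝ) ≤ o' - o)
    nlinarith [k1, k2, k3]

lemma phiF_mono {rule : α → Set α → Prop}
    (hr : ∀ x B B', B ⊆ B' → rule x B → rule x B') {s s' o o' : ℝ}
    (hs0 : 0 ≤ s) (hss : s ≤ s') (hs1 : s' ≤ 1) (ho0 : 0 ≤ o) (hoo : o ≤ o') (ho1 : o' ≤ 1)
    (V : Finset α) (z : α) : phiF rule V z s o ≤ phiF rule V z s' o' := by
  unfold phiF
  have a : EV s V (fun σ => EV o V (fun ω => fz rule z (σ : Set α) ω))
      ≤ EV s' V (fun σ => EV o V (fun ω => fz rule z (σ : Set α) ω)) := by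
    apply EV_mono_param hs0 hss hs1
    intro σ σ' hσ
    apply EV_mono ho0 (hoo.trans ho1)
    intro ω _
    exact fz_mono hr z (by exact_mod_cast hσ) subset_rfl
  refine a.trans ?_
  apply EV_mono (hs0.trans hss) hs1
  intro σ _
  apply EV_mono_param ho0 hoo ho1
  intro ω ω' hω
  exact fz_mono hr z subset_rfl hω

lemma phiF_nonneg (rule : α → Set α → Prop) {s o : ℝ} (hs0 : 0 ≤ s) (hs1 : s ≤ 1) (ho0 : 0 ≤ o)
    (ho1 : o ≤ 1) (V : Finset α) (z : α) : 0 ≤ phiF rule V z s o :=
  EV_nonneg hs0 hs1 (fun _ _ => EV_nonneg ho0 ho1 (fun _ _ => fz_nonneg _ _ _ _))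

/-- Integration of the differential inequality along the curve
`(s0 * exp (-t), o2 - κ * (1 - exp (-t)))`. -/
theorem key {rule : α → Set α → Prop}
    (hr : ∀ x B B', B ⊆ B' → rule x B → rule x B') (V : Finset α) {s0 o2 κ ε0 : ℝ}
    (hs0 : 0 ≤ s0) (hs1 : s0 ≤ 1) (ho2 : o2 ≤ 1) (hκ0 : 0 < κ) (hκo : κ ≤ o2)
    (hε : ε0 < κ * Real.exp (-κ)) (hstart : ∀ z ∈ V, phiF rule V z s0 o2 ≤ ε0) :
    ∀ t : ℝ, 0 ≤ t → ∀ z ∈ V,
      phiF rule V z (s0 * Real.exp (-t)) (o2 - κ * (1 - Real.exp (-t))) ≤ κ * Real.exp (-t) := by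
  intro T hT z1 hz1
  by_contra hcon
  push Not at hcon
  set sc : ℝ → ℝ := fun t => s0 * Real.exp (-t) with hsc
  set oc : ℝ → ℝ := fun t => o2 - κ * (1 - Real.exp (-t)) with hoc
  set u : α → ℝ → ℝ := fun z t => phiF rule V z (sc t) (oc t) with hu
  have hexp : ∀ t : ℝ, HasDerivAt (fun t => Real.exp (-t)) (-Real.exp (-t)) t := by
    intro t
    have := (hasDerivAt_neg t).exp
    simpa using this
  have hdsc : ∀ t, HasDerivAt sc (-(sc t)) t := by
    intro t
    have := (hexp t).const_mul s0
    simpa [hsc] using this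
  have hdoc : ∀ t, HasDerivAt oc (-(κ * Real.exp (-t))) t := by
    intro t
    have h1 : HasDerivAt (fun t => 1 - Real.exp (-t)) (Real.exp (-t)) t := by
      have := (hexp t).const_sub 1
      simpa using this
    have h2 := (h1.const_mul κ).const_sub o2
    simpa [hoc] using h2
  set dS : α → ℝ → ℝ := fun z t =>
    ∑ x ∈ V, EV (sc t) V (D x (fun σ => EV (oc t) V (fun ω => fz rule z (σ : Set α) ω))) with hdS
  set dO : α → ℝ → ℝ := fun z t =>
    ∑ x ∈ V, EV (sc t) V (fun σ => EV (oc t) V (D x (fun ω => fz rule z (σ : Set α) ω))) with hdO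
  have hdu : ∀ z t, HasDerivAt (u z) (-(sc t) * dS z t + -(κ * Real.exp (-t)) * dO z t) t := by
    intro z t
    have inner : ∀ σ : Finset α, HasDerivAt
        (fun r => EV (oc r) V (fun ω => fz rule z (σ : Set α) ω))
        (-(κ * Real.exp (-t)) * ∑ x ∈ V, EV (oc t) V (D x (fun ω => fz rule z (σ : Set α) ω))) t := by
      intro σ
      have := hasDerivAt_EV (hdoc t) V (fun _ ω => fz rule z (σ : Set α) ω) (fun _ => 0)
        (fun ω => hasDerivAt_const t _)
      rw [EV_const, add_zero] at this
      exact this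
    have outer := hasDerivAt_EV (hdsc t) V
      (fun r σ => EV (oc r) V (fun ω => fz rule z (σ : Set α) ω)) _ inner
    refine outer.congr_deriv ?_
    rw [EV_mul_left, EV_sum]
  have hcu : ∀ z, Continuous (u z) := fun z =>
    continuous_iff_continuousAt.mpr (fun t => (hdu z t).continuousAt)
  have hb : Continuous (fun t : ℝ => κ * Real.exp (-t)) := by fun_prop
  -- ranges
  have hexp01 : ∀ t : ℝ, 0 ≤ t → Real.exp (-t) ≤ 1 := by
    intro t ht
    apply Real.exp_le_one_iff.mpr
    linarith
  have hexpos : ∀ t : ℝ, 0 < Real.exp (-t) := fun t => Real.exp_pos _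
  have hscr : ∀ t, 0 ≤ t → 0 ≤ sc t ∧ sc t ≤ 1 := by
    intro t ht
    constructor
    · exact mul_nonneg hs0 (hexpos t).le
    · calc s0 * Real.exp (-t) ≤ 1 * 1 :=
          mul_le_mul hs1 (hexp01 t ht) (hexpos t).le (by norm_num)
        _ = 1 := by norm_num
  have hocr : ∀ t, 0 ≤ t → 0 ≤ oc t ∧ oc t ≤ 1 := by
    intro t ht
    have a := hexp01 t ht
    have b := hexpos t
    constructor
    · show 0 ≤ o2 - κ * (1 - Real.exp (-t))
      nlinarith
    · show o2 - κ * (1 - Real.exp (-t)) ≤ 1
      nlinarith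
  -- bad set
  set B : Set ℝ := {t | t ∈ Set.Icc 0 T ∧ ∃ z ∈ V, κ * Real.exp (-t) ≤ u z t} with hB
  have hBne : B.Nonempty := ⟨T, ⟨hT, le_refl T⟩, z1, hz1, hcon.le⟩
  have hBcl : IsClosed B := by
    have : B = Set.Icc 0 T ∩ ⋃ z ∈ V, {t | κ * Real.exp (-t) ≤ u z t} := by
      ext t
      simp [hB]
    rw [this]
    apply isClosed_Icc.inter
    apply Set.Finite.isClosed_biUnion (Finset.finite_toSet V)
    intro z _
    exact isClosed_le hb (hcu z)
  have hBbd : BddBelow B := ⟨0, fun t ht => ht.1.1⟩
  obtain ⟨⟨ht0, htT⟩, zs, hzs, hzsu⟩ := hBcl.csInf_mem hBne hBbd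
  set ts := sInf B with hts
  have hbelow : ∀ t, 0 ≤ t → t < ts → ∀ z ∈ V, u z t < κ * Real.exp (-t) := by
    intro t h0t htt z hz
    by_contra hc
    push Not at hc
    have : t ∈ B := ⟨⟨h0t, (htt.le.trans htT)⟩, z, hz, hc⟩
    exact absurd (csInf_le hBbd this) (not_le.mpr htt)
  -- the weight function
  set w : ℝ → ℝ := fun t => u zs t * Real.exp (t - κ * (1 - Real.exp (-t))) with hw
  have hdw : ∀ t, HasDerivAt w
      ((-(sc t) * dS zs t + -(κ * Real.exp (-t)) * dO zs t)
          * Real.exp (t - κ * (1 - Real.exp (-t)))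
        + u zs t * (Real.exp (t - κ * (1 - Real.exp (-t))) * (1 - κ * Real.exp (-t)))) t := by
    intro t
    have h1 : HasDerivAt (fun t => 1 - Real.exp (-t)) (Real.exp (-t)) t := by
      have := (hexp t).const_sub 1
      simpa using this
    have h2 : HasDerivAt (fun t => t - κ * (1 - Real.exp (-t))) (1 - κ * Real.exp (-t)) t :=
      (hasDerivAt_id t).sub (h1.const_mul κ)
    exact (hdu zs t).mul h2.exp
  have hanti : AntitoneOn w (Set.Icc 0 ts) := by
    apply antitoneOn_of_deriv_nonpos (convex_Icc 0 ts)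
    · exact (continuous_iff_continuousAt.mpr (fun t => (hdw t).continuousAt)).continuousOn
    · intro t _
      exact (hdw t).differentiableAt.differentiableWithinAt
    · intro t ht
      rw [interior_Icc] at ht
      rw [(hdw t).deriv]
      have h0t : 0 ≤ t := ht.1.le
      have hlt := hbelow t h0t ht.2
      obtain ⟨sa, sb⟩ := hscr t h0t
      obtain ⟨oa, ob⟩ := hocr t h0t
      have h2 := two_level hr sa sb oa ob V zs
      have hdSnn : 0 ≤ dS zs t := by
        apply Finset.sum_nonneg
        intro x _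
        apply EV_nonneg sa sb
        intro σ _
        unfold D
        have : EV (oc t) V (fun ω => fz rule zs ((σ.erase x : Finset α) : Set α) ω)
            ≤ EV (oc t) V (fun ω => fz rule zs ((insert x σ : Finset α) : Set α) ω) := by
          apply EV_mono oa ob
          intro ω _
          apply fz_mono hr zs _ subset_rfl
          have : σ.erase x ⊆ insert x σ :=
            (Finset.erase_subset x σ).trans (Finset.subset_insert x σ)
          exact_mod_cast this
        linarith
      have hterm : ∀ x ∈ V, 0 ≤ EV (sc t) V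
          (fun σ => EV (oc t) V (D x (fun ω => fz rule zs (σ : Set α) ω))) := by
        intro x _
        apply EV_nonneg sa sb
        intro σ _
        apply EV_nonneg oa ob
        intro ω _
        unfold D
        have : fz rule zs (σ : Set α) (ω.erase x) ≤ fz rule zs (σ : Set α) (insert x ω) :=
          fz_mono hr zs subset_rfl ((Finset.erase_subset x ω).trans (Finset.subset_insert x ω))
        linarith
      have hdOnn : 0 ≤ dO zs t := Finset.sum_nonneg hterm
      have hsum : ∑ x ∈ V, phiF rule V x (sc t) (oc t)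
            * EV (sc t) V (fun σ => EV (oc t) V (D x (fun ω => fz rule zs (σ : Set α) ω)))
          ≤ κ * Real.exp (-t) * dO zs t := by
        rw [hdO, Finset.mul_sum]
        apply Finset.sum_le_sum
        intro x hx
        exact mul_le_mul_of_nonneg_right (hlt x hx).le (hterm x hx)
      have hunn : 0 ≤ u zs t := phiF_nonneg rule sa sb oa ob V zs
      have hus : u zs t ≤ κ * Real.exp (-t) := (hlt zs hzs).le
      have hkey : u zs t * (1 - κ * Real.exp (-t)) ≤ sc t * dS zs t + κ * Real.exp (-t) * dO zs t := by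
        have h2' : u zs t - u zs t * u zs t ≤ sc t * (1 - sc t) * dS zs t
          + (1 - oc t) * ∑ x ∈ V, phiF rule V x (sc t) (oc t)
            * EV (sc t) V (fun σ => EV (oc t) V (D x (fun ω => fz rule zs (σ : Set α) ω))) := h2
        have b1 : sc t * (1 - sc t) * dS zs t ≤ sc t * dS zs t := by
          have : sc t * (1 - sc t) ≤ sc t := by nlinarith
          exact mul_le_mul_of_nonneg_right this hdSnn
        have hSnn : 0 ≤ ∑ x ∈ V, phiF rule V x (sc t) (oc t)
            * EV (sc t) V (fun σ => EV (oc t) V (D x (fun ω => fz rule zs (σ : Set α) ω))) :=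
          Finset.sum_nonneg (fun x hx =>
            mul_nonneg (phiF_nonneg rule sa sb oa ob V x) (hterm x hx))
        have b2 : (1 - oc t) * ∑ x ∈ V, phiF rule V x (sc t) (oc t)
            * EV (sc t) V (fun σ => EV (oc t) V (D x (fun ω => fz rule zs (σ : Set α) ω)))
            ≤ κ * Real.exp (-t) * dO zs t := by
          have : (1 - oc t) * ∑ x ∈ V, phiF rule V x (sc t) (oc t)
            * EV (sc t) V (fun σ => EV (oc t) V (D x (fun ω => fz rule zs (σ : Set α) ω)))
            ≤ 1 * ∑ x ∈ V, phiF rule V x (sc t) (oc t)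
            * EV (sc t) V (fun σ => EV (oc t) V (D x (fun ω => fz rule zs (σ : Set α) ω))) :=
            mul_le_mul_of_nonneg_right (by linarith) hSnn
          linarith
        have b3 : u zs t * u zs t ≤ u zs t * (κ * Real.exp (-t)) :=
          mul_le_mul_of_nonneg_left hus hunn
        nlinarith
      have hE : 0 < Real.exp (t - κ * (1 - Real.exp (-t))) := Real.exp_pos _
      nlinarith [mul_le_mul_of_nonneg_right hkey hE.le]
  have hfin := hanti (Set.left_mem_Icc.mpr ht0) (Set.right_mem_Icc.mpr ht0) ht0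
  -- value at 0
  have hw0 : w 0 = u zs 0 := by simp [hw]
  have hu0 : u zs 0 ≤ ε0 := by
    have := hstart zs hzs
    simpa [hu, hsc, hoc] using this
  have hwt : κ * Real.exp (-κ) ≤ w ts := by
    have e1 : κ * Real.exp (-ts) * Real.exp (ts - κ * (1 - Real.exp (-ts))) ≤ w ts :=
      mul_le_mul_of_nonneg_right hzsu (Real.exp_pos _).le
    refine le_trans ?_ e1
    rw [mul_assoc, ← Real.exp_add]
    apply mul_le_mul_of_nonneg_left _ hκ0.le
    apply Real.exp_le_exp.mpr
    have := hexpos ts
    nlinarith
  rw [hw0] at hfin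
  linarith

end Pool.Agent.Helper99.Boot
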