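import Mathlib
import Pool.Agent.Helper99.BootSharp

set_option autoImplicit false
set_option linter.unusedSectionVars false

/-!
Bridge between the infinite product measure on configurations with three states
(`0` empty, `1` occupied, `2` closed) and the finite expectations of `BootEV`.
-/

namespace Pool.Agent.Helper99.Boot

open Finset MeasureTheory

variable {α : Type*} [DecidableEq α]

/-- Marginalisation. -/
lemma EV_marginal (s : ℝ) (ω : Finset α) (h : Finset α → ℝ) (R : Finset α) (hR : Disjoint ω R) :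
    EV s (ω ∪ R) (fun σ => h (σ ∩ ω)) = EV s ω h := by
  induction R using Finset.induction_on with
  | empty =>
    rw [Finset.union_empty]
    apply EV_congr
    intro σ hσ
    rw [Finset.inter_eq_left.mpr hσ]
  | insert x R hx ih =>
    have hxω : x ∉ ω := by
      intro h
      exact (Finset.disjoint_left.mp hR h) (Finset.mem_insert_self x R)
    have hR' : Disjoint ω R := hR.mono_right (Finset.subset_insert x R)
    have hx' : x ∉ ω ∪ R := by simp [hxω, hx]
    rw [Finset.union_insert, EV_insert s hx', ih hR']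
    have : EV s (ω ∪ R) (fun σ => h (insert x σ ∩ ω)) = EV s (ω ∪ R) (fun σ => h (σ ∩ ω)) := by
      apply EV_congr
      intro σ _
      rw [Finset.insert_inter_of_notMem hxω]
    rw [this, ih hR']
    ring

lemma EV_marginal' (s : ℝ) {ω W : Finset α} (hω : ω ⊆ W) (h : Finset α → ℝ) :
    EV s W (fun σ => h (σ ∩ ω)) = EV s ω h := by
  have := EV_marginal s ω h (W \ ω) Finset.disjoint_sdiff
  rwa [Finset.union_sdiff_of_subset hω] at this

/-- Only the marks inside `ω` matter. -/
lemma Cl_congr_marks (rule : α → Set α → Prop) {σ σ' : Set α} {ω : Finset α}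
    (h : ∀ y ∈ ω, (y ∈ σ ↔ y ∈ σ')) (A : Set α) : Cl (act rule σ) A ω = Cl (act rule σ') A ω := by
  ext x
  unfold Cl act
  constructor
  · intro hx B hA hB
    apply hx B hA
    intro y hy ha
    exact hB y hy (ha.imp (fun h' => (h y hy).mp h') id)
  · intro hx B hA hB
    apply hx B hA
    intro y hy ha
    exact hB y hy (ha.imp (fun h' => (h y hy).mpr h') id)

lemma phiF_eq_sum (rule : α → Set α → Prop) (W : Finset α) (z : α) (s o : ℝ) :
    phiF rule W z s o = ∑ ω ∈ W.powerset, ∑ σ ∈ ω.powerset,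
      (o ^ ω.card * (1 - o) ^ (W.card - ω.card) * (s ^ σ.card * (1 - s) ^ (ω.card - σ.card)))
        * fz rule z (σ : Set α) ω := by
  rw [phiF, EV_swap]
  have : ∀ ω, ω ⊆ W → EV s W (fun σ => fz rule z (σ : Set α) ω)
      = EV s ω (fun σ => fz rule z (σ : Set α) ω) := by
    intro ω hω
    rw [← EV_marginal' s hω (fun σ => fz rule z (σ : Set α) ω)]
    apply EV_congr
    intro σ _
    unfold fz
    rw [Cl_congr_marks rule (σ := (σ : Set α)) (σ' := ((σ ∩ ω : Finset α) : Set α))]
    intro y hy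
    simp [hy]
  rw [EV_congr o this]
  unfold EV
  apply Finset.sum_congr rfl
  intro ω _
  rw [Finset.mul_sum]
  apply Finset.sum_congr rfl
  intro σ _
  ring

section measure

variable (μ : Measure (Fin 3)) [IsProbabilityMeasure μ]

/-- The value pattern encoded by a pair `σ ⊆ ω`. -/
def pat (σ ω : Finset α) (y : α) : Fin 3 := if y ∈ σ then 1 else if y ∈ ω then 0 else 2

lemma prod_pat {σ ω W : Finset α} (hσ : σ ⊆ ω) (hω : ω ⊆ W) (a b c : ENNReal) (w : Fin 3 → ENNReal)
    (h1 : w 1 = a) (h0 : w 0 = b) (h2 : w 2 = c) :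
    ∏ y ∈ W, w (pat σ ω y) = a ^ σ.card * b ^ (ω.card - σ.card) * c ^ (W.card - ω.card) := by
  rw [← Finset.prod_sdiff hω, ← Finset.prod_sdiff hσ]
  have e1 : ∏ y ∈ W \ ω, w (pat σ ω y) = c ^ (W.card - ω.card) := by
    rw [← Finset.card_sdiff_of_subset hω]
    apply Finset.prod_eq_pow_card
    intro y hy
    have hyω : y ∉ ω := (Finset.mem_sdiff.mp hy).2
    have hyσ : y ∉ σ := fun h => hyω (hσ h)
    simp [pat, hyω, hyσ, h2]
  have e2 : ∏ y ∈ ω \ σ, w (pat σ ω y) = b ^ (ω.card - σ.card) := by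
    rw [← Finset.card_sdiff_of_subset hσ]
    apply Finset.prod_eq_pow_card
    intro y hy
    have hy' := Finset.mem_sdiff.mp hy
    simp [pat, hy'.1, hy'.2, h0]
  have e3 : ∏ y ∈ σ, w (pat σ ω y) = a ^ σ.card := by
    apply Finset.prod_eq_pow_card
    intro y hy
    simp [pat, hy, h1]
  rw [e1, e2, e3]
  ring

lemma meas_cyl {s o : ℝ} (hs0 : 0 ≤ s) (hs1 : s ≤ 1) (ho0 : 0 ≤ o) (ho1 : o ≤ 1)
    (h1 : μ {1} = ENNReal.ofReal (o * s)) (h0 : μ {0} = ENNReal.ofReal (o * (1 - s)))
    (h2 : μ {2} = ENNReal.ofReal (1 - o)) {σ ω W : Finset α} (hσ : σ ⊆ ω) (hω : ω ⊆ W) :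
    Measure.infinitePi (fun _ : α => μ) (Set.pi (W : Set α) (fun y => {pat σ ω y}))
      = ENNReal.ofReal (o ^ ω.card * (1 - o) ^ (W.card - ω.card)
          * (s ^ σ.card * (1 - s) ^ (ω.card - σ.card))) := by
  rw [Measure.infinitePi_pi _ (fun _ _ => measurableSet_singleton _)]
  have := prod_pat hσ hω _ _ _ (fun v : Fin 3 => μ {v}) h1 h0 h2
  rw [this]
  have hs1' : 0 ≤ 1 - s := by linarith
  have ho1' : 0 ≤ 1 - o := by linarith
  rw [← ENNReal.ofReal_pow (by positivity), ← ENNReal.ofReal_pow (by positivity),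
    ← ENNReal.ofReal_pow (by positivity), ← ENNReal.ofReal_mul (by positivity),
    ← ENNReal.ofReal_mul (by positivity)]
  congr 1
  have hcard : ω.card = σ.card + (ω.card - σ.card) := by
    have := Finset.card_le_card hσ
    omega
  have ho : o ^ ω.card = o ^ σ.card * o ^ (ω.card - σ.card) := by
    rw [← pow_add, ← hcard]
  rw [mul_pow, mul_pow, ho]
  ring

/-- The finite volume event. -/
def finEvent (rule : α → Set α → Prop) (W : Finset α) (z : α) : Set (α → Fin 3) :=
  {c | z ∈ Cl (act rule {x | c x = 1}) ∅ (W.filter (fun y => c y ≠ 2))}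

lemma finEvent_eq (rule : α → Set α → Prop) (W : Finset α) (z : α) (c : α → Fin 3)
    {σ ω : Finset α} (hσ : σ ⊆ ω) (hω : ω ⊆ W)
    (hc : c ∈ Set.pi (W : Set α) (fun y => {pat σ ω y})) :
    c ∈ finEvent rule W z ↔ z ∈ Cl (act rule (σ : Set α)) ∅ ω := by
  have hc' : ∀ y ∈ W, c y = pat σ ω y := by
    intro y hy
    have := hc y (by exact_mod_cast hy)
    simpa using this
  have hfil : W.filter (fun y => c y ≠ 2) = ω := by
    ext y
    rw [Finset.mem_filter]
    constructor
    · rintro ⟨hy, hne⟩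
      by_contra hyω
      apply hne
      rw [hc' y hy]
      have hyσ : y ∉ σ := fun h => hyω (hσ h)
      simp [pat, hyσ, hyω]
    · intro hy
      refine ⟨hω hy, ?_⟩
      rw [hc' y (hω hy)]
      unfold pat
      split_ifs
      · decide
      · decide
  unfold finEvent
  rw [Set.mem_setOf_eq, hfil, Cl_congr_marks rule (σ := {x | c x = 1}) (σ' := (σ : Set α))]
  intro y hy
  rw [Set.mem_setOf_eq, hc' y (hω hy)]
  unfold pat
  by_cases hyσ : y ∈ σ
  · simp [hyσ]
  · simp [hyσ, hy]

lemma exists_pat (W : Finset α) (c : α → Fin 3) :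
    ∃ ω ∈ W.powerset, ∃ σ ∈ ω.powerset, c ∈ Set.pi (W : Set α) (fun y => {pat σ ω y}) := by
  refine ⟨W.filter (fun y => c y ≠ 2), ?_, W.filter (fun y => c y = 1), ?_, ?_⟩
  · simp
  · rw [Finset.mem_powerset]
    intro y hy
    rw [Finset.mem_filter] at hy ⊢
    refine ⟨hy.1, ?_⟩
    rw [hy.2]
    decide
  · intro y hy
    have hy' : y ∈ W := by exact_mod_cast hy
    rw [Set.mem_singleton_iff]
    unfold pat
    have h3 : c y = 0 ∨ c y = 1 ∨ c y = 2 := by
      generalize c y = v
      fin_cases v <;> simp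
    rcases h3 with h | h | h <;> simp [hy', h]

lemma pat_inj {W : Finset α} {σ ω σ' ω' : Finset α} (hσ : σ ⊆ ω) (hω : ω ⊆ W) (hσ' : σ' ⊆ ω')
    (hω' : ω' ⊆ W) {c : α → Fin 3} (hc : c ∈ Set.pi (W : Set α) (fun y => {pat σ ω y}))
    (hc' : c ∈ Set.pi (W : Set α) (fun y => {pat σ' ω' y})) : ω = ω' ∧ σ = σ' := by
  have key : ∀ y ∈ W, pat σ ω y = pat σ' ω' y := by
    intro y hy
    have h1 := hc y (by exact_mod_cast hy)
    have h2 := hc' y (by exact_mod_cast hy)
    rw [Set.mem_singleton_iff] at h1 h2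
    rw [← h1, ← h2]
  constructor
  · ext y
    constructor
    · intro hy
      by_contra hy'
      have := key y (hω hy)
      have hyσ' : y ∉ σ' := fun h => hy' (hσ' h)
      unfold pat at this
      by_cases hyσ : y ∈ σ
      · simp [hyσ, hyσ', hy'] at this
      · simp [hyσ, hyσ', hy', hy] at this
    · intro hy
      by_contra hy'
      have := key y (hω' hy)
      have hyσ : y ∉ σ := fun h => hy' (hσ h)
      unfold pat at this
      by_cases hyσ' : y ∈ σ'
      · simp [hyσ, hyσ', hy'] at this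
      · simp [hyσ, hyσ', hy', hy] at this
  · ext y
    constructor
    · intro hy
      by_contra hy'
      have := key y (hω (hσ hy))
      unfold pat at this
      by_cases h : y ∈ ω'
      · simp [hy, hy', h] at this
      · simp [hy, hy', h] at this
    · intro hy
      by_contra hy'
      have := key y (hω' (hσ' hy))
      unfold pat at this
      by_cases h : y ∈ ω
      · simp [hy, hy', h] at this
      · simp [hy, hy', h] at this

theorem meas_finEvent {s o : ℝ} (hs0 : 0 ≤ s) (hs1 : s ≤ 1) (ho0 : 0 ≤ o) (ho1 : o ≤ 1)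
    (h1 : μ {1} = ENNReal.ofReal (o * s)) (h0 : μ {0} = ENNReal.ofReal (o * (1 - s)))
    (h2 : μ {2} = ENNReal.ofReal (1 - o)) (rule : α → Set α → Prop) (W : Finset α) (z : α) :
    Measure.infinitePi (fun _ : α => μ) (finEvent rule W z)
      = ENNReal.ofReal (phiF rule W z s o) := by
  classical
  have hs1' : 0 ≤ 1 - s := by linarith
  have ho1' : 0 ≤ 1 - o := by linarith
  set I : Finset (Σ _ : Finset α, Finset α) :=
    (W.powerset.sigma (fun ω => ω.powerset)).filter
      (fun p => z ∈ Cl (act rule (p.2 : Set α)) ∅ p.1) with hI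
  have hE : finEvent rule W z
      = ⋃ p ∈ I, Set.pi (W : Set α) (fun y => {pat p.2 p.1 y}) := by
    ext c
    simp only [Set.mem_iUnion]
    constructor
    · intro hc
      obtain ⟨ω, hω, σ, hσ, hcp⟩ := exists_pat W c
      rw [Finset.mem_powerset] at hω hσ
      refine ⟨⟨ω, σ⟩, ?_, hcp⟩
      rw [hI, Finset.mem_filter, Finset.mem_sigma, Finset.mem_powerset, Finset.mem_powerset]
      exact ⟨⟨hω, hσ⟩, (finEvent_eq rule W z c hσ hω hcp).mp hc⟩
    · rintro ⟨⟨ω, σ⟩, hp, hcp⟩
      rw [hI, Finset.mem_filter, Finset.mem_sigma, Finset.mem_powerset, Finset.mem_powerset] at hp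
      exact (finEvent_eq rule W z c hp.1.2 hp.1.1 hcp).mpr hp.2
  rw [hE, measure_biUnion_finset]
  · rw [phiF_eq_sum]
    have : ∀ p ∈ I, Measure.infinitePi (fun _ : α => μ)
        (Set.pi (W : Set α) (fun y => {pat p.2 p.1 y}))
        = ENNReal.ofReal (o ^ p.1.card * (1 - o) ^ (W.card - p.1.card)
          * (s ^ p.2.card * (1 - s) ^ (p.1.card - p.2.card))) := by
      intro p hp
      rw [hI, Finset.mem_filter, Finset.mem_sigma, Finset.mem_powerset, Finset.mem_powerset] at hp
      exact meas_cyl μ hs0 hs1 ho0 ho1 h1 h0 h2 hp.1.2 hp.1.1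
    rw [Finset.sum_congr rfl this, ← ENNReal.ofReal_sum_of_nonneg]
    · congr 1
      rw [← Finset.sum_sigma W.powerset (fun ω => ω.powerset)
        (fun p => (o ^ p.1.card * (1 - o) ^ (W.card - p.1.card)
          * (s ^ p.2.card * (1 - s) ^ (p.1.card - p.2.card))) * fz rule z (p.2 : Set α) p.1)]
      rw [hI, Finset.sum_filter]
      apply Finset.sum_congr rfl
      intro p _
      unfold fz ind
      split_ifs <;> simp
    · intro p _
      positivity
  · intro p hp q hq hpq
    rw [Finset.mem_coe, hI, Finset.mem_filter, Finset.mem_sigma, Finset.mem_powerset,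
      Finset.mem_powerset] at hp hq
    rw [Function.onFun, Set.disjoint_left]
    intro c hc hc'
    apply hpq
    obtain ⟨e1, e2⟩ := pat_inj hp.1.2 hp.1.1 hq.1.2 hq.1.1 hc hc'
    rcases p with ⟨p1, p2⟩
    rcases q with ⟨q1, q2⟩
    simp only at e1 e2
    subst e1 e2
    rfl
  · intro p _
    exact MeasurableSet.pi (Finset.countable_toSet W) (fun _ _ => measurableSet_singleton _)

lemma finEvent_mono {rule : α → Set α → Prop}
    (hr : ∀ x B B', B ⊆ B' → rule x B → rule x B') (z : α) :
    Monotone (fun W : Finset α => finEvent rule W z) := by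
  intro W W' hW c hc
  exact Cl_mono (act_mono hr _) (fun x B h => h) subset_rfl
    (Finset.filter_subset_filter _ hW) hc

/-- The infinite volume event has probability `≤ c` iff all finite volume ones do. -/
theorem meas_iUnion_finEvent [Countable α] {rule : α → Set α → Prop}
    (hr : ∀ x B B', B ⊆ B' → rule x B → rule x B') (z : α)
    (P : Measure (α → Fin 3)) :
    P (⋃ W : Finset α, finEvent rule W z) = ⨆ W : Finset α, P (finEvent rule W z) :=
  (finEvent_mono hr z).directed_le.measure_iUnion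

end measure

end Pool.Agent.Helper99.Boot
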