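import Mathlib
import Pool.Agent.Helper24.Seg.RayStmt

/-!
P3c for MP_e9c934_an: non-injectivity near the branch ray.
-/

open Set Filter Topology Module

namespace Seg

/-- affinity of `N a j` -/
lemma N_add_smul (a : Fin 4 → E3) (j : Fin 4) (p u : E3) (c : ℝ) :
    N a j (p + c • u) = N a j p + c * (N a j (p + u) - N a j p) := by
  fin_cases j <;> simp [N0, N1, N2, N3, vol] <;> ring

lemma N_comb (a : Fin 4 → E3) (j : Fin 4) (p q : E3) (t : ℝ) :
    N a j ((1 - t) • p + t • q) = (1 - t) * N a j p + t * N a j q := by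
  fin_cases j <;> simp [N0, N1, N2, N3, vol] <;> ring

lemma N_comb_add (a : Fin 4 → E3) (j : Fin 4) (p q u : E3) (t c : ℝ) :
    N a j (((1 - t) • p + t • q) + c • u) =
      (1 - t) * N a j p + t * N a j q + c * (N a j (p + u) - N a j p) := by
  fin_cases j <;> simp [N0, N1, N2, N3, vol] <;> ring

lemma continuous_N (a : Fin 4 → E3) (j : Fin 4) : Continuous (N a j) := by
  have : N a j = NA a j := rfl
  rw [this]
  exact (NA a j).continuous_of_finiteDimensional

lemma continuous_amap (a b : Fin 4 → E3) : Continuous (amap a b) := by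
  have h : Continuous (fun x : E3 => ∑ j, N a j x • b j) :=
    continuous_finsetSum _ fun j _ => (continuous_N a j).smul continuous_const
  exact h.const_smul (V4 a)⁻¹

/-- `N` of an affine combination of the vertices -/
lemma N_weights (b : Fin 4 → E3) (w : Fin 4 → ℝ) (hw : ∑ k, w k = 1) (j : Fin 4) :
    N b j (∑ k, w k • b k) = w j * V4 b := by
  have h3 : w 3 = 1 - w 0 - w 1 - w 2 := by
    rw [Fin.sum_univ_four] at hw; linarith
  fin_cases j <;> simp [Fin.sum_univ_four, N0, N1, N2, N3, V4, vol, h3] <;> ring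

lemma N_amap (a b : Fin 4 → E3) (ha : V4 a ≠ 0) (j : Fin 4) (x : E3) :
    N b j (amap a b x) = V4 b / V4 a * N a j x := by
  have h : amap a b x = ∑ k, ((V4 a)⁻¹ * N a k x) • b k := by
    unfold amap
    rw [Finset.smul_sum]
    exact Finset.sum_congr rfl fun k _ => by rw [smul_smul]
  rw [h, N_weights]
  · field_simp
  · rw [← Finset.mul_sum, N_sum]; exact inv_mul_cancel₀ ha

lemma amap_amap (a b : Fin 4 → E3) (ha : V4 a ≠ 0) (hb : V4 b ≠ 0) (x : E3) :
    amap b a (amap a b x) = x := by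
  have h1 : amap b a (amap a b x) = (V4 b)⁻¹ • ∑ j, (V4 b / V4 a * N a j x) • a j := by
    conv_lhs => unfold amap
    congr 1
    refine Finset.sum_congr rfl fun j _ => ?_
    have := N_amap a b ha j x
    rw [← this]
    rfl
  rw [h1]
  have h2 : ∑ j, (V4 b / V4 a * N a j x) • a j = (V4 b / V4 a) • ∑ j, N a j x • a j := by
    rw [Finset.smul_sum]
    exact Finset.sum_congr rfl fun k _ => by rw [smul_smul]
  rw [h2, N_sum_smul, smul_smul, smul_smul]
  have : (V4 b)⁻¹ * (V4 b / V4 a) * V4 a = 1 := by field_simp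
  rw [this, one_smul]

lemma amap_edge (a b : Fin 4 → E3) (ha : V4 a ≠ 0) {j₀ j₁ : Fin 4} (hj : j₀ ≠ j₁) (t : ℝ) :
    amap a b ((1 - t) • a j₀ + t • a j₁) = (1 - t) • b j₀ + t • b j₁ := by
  have key : ∀ k, N a k ((1 - t) • a j₀ + t • a j₁) =
      (if k = j₀ then (1 - t) * V4 a else 0) + (if k = j₁ then t * V4 a else 0) := by
    intro k
    rw [N_comb]
    by_cases h0 : k = j₀
    · subst h0
      rw [N_self, N_other a hj]
      simp [hj]
    · by_cases h1 : k = j₁
      · subst h1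
        rw [N_self, N_other a h0]
        simp [h0]
      · rw [N_other a h0, N_other a h1]
        simp [h0, h1]
  unfold amap
  simp only [key, add_smul, ite_smul, zero_smul, Finset.sum_add_distrib, Finset.sum_ite_eq',
    Finset.mem_univ, if_true]
  rw [smul_add, smul_smul, smul_smul]
  congr 2 <;> field_simp

/-- data of one side of a branching edge -/
lemma side {a b : Fin 4 → E3} (ha : 0 < V4 a) (hb : 0 < V4 b) {j₀ j₁ : Fin 4} (hj : j₀ ≠ j₁)
    {t : ℝ} (ht0 : 0 < t) (ht1 : t < 1) {u : E3}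
    (hu : ∀ j, j ≠ j₀ → j ≠ j₁ → 0 < N b j (b j₀ + u)) {U : Set E3}
    (hU : U ∈ 𝓝 ((1 - t) • a j₀ + t • a j₁)) :
    ∀ᶠ ε : ℝ in 𝓝[>] 0, (∀ j, 0 < N a j (amap b a (((1 - t) • b j₀ + t • b j₁) + ε • u))) ∧
      amap b a (((1 - t) • b j₀ + t • b j₁) + ε • u) ∈ U ∧
      amap a b (amap b a (((1 - t) • b j₀ + t • b j₁) + ε • u)) =
        ((1 - t) • b j₀ + t • b j₁) + ε • u := by
  have hcont : Continuous fun ε : ℝ => ((1 - t) • b j₀ + t • b j₁) + ε • u := by fun_prop
  have hpos : ∀ j, ∀ᶠ ε : ℝ in 𝓝[>] 0, 0 < N b j (((1 - t) • b j₀ + t • b j₁) + ε • u) := by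
    intro j
    by_cases h : j ≠ j₀ ∧ j ≠ j₁
    · filter_upwards [self_mem_nhdsWithin] with ε hε
      rw [N_comb_add, N_other b h.1, N_other b h.2]
      have := hu j h.1 h.2
      have hε' : (0 : ℝ) < ε := hε
      have : 0 < ε * N b j (b j₀ + u) := by positivity
      linarith
    · have hc : ContinuousAt (fun ε : ℝ => N b j (((1 - t) • b j₀ + t • b j₁) + ε • u)) 0 :=
        ((continuous_N b j).comp hcont).continuousAt
      have h0 : 0 < N b j (((1 - t) • b j₀ + t • b j₁) + (0 : ℝ) • u) := by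
        rw [zero_smul, add_zero, N_comb]
        by_cases h1 : j = j₀
        · subst h1
          rw [N_self, N_other b hj]
          have : 0 < (1 - t) * V4 b := mul_pos (by linarith) hb
          linarith
        · have h2 : j = j₁ := by
            by_contra h2
            exact h ⟨h1, h2⟩
          subst h2
          rw [N_self, N_other b h1]
          have : 0 < t * V4 b := mul_pos ht0 hb
          linarith
      exact nhdsWithin_le_nhds (hc.eventually (lt_mem_nhds h0))
  have hmem : ∀ᶠ ε : ℝ in 𝓝[>] 0, amap b a (((1 - t) • b j₀ + t • b j₁) + ε • u) ∈ U := by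
    have hc : ContinuousAt (fun ε : ℝ => amap b a (((1 - t) • b j₀ + t • b j₁) + ε • u)) 0 :=
      ((continuous_amap b a).comp hcont).continuousAt
    have h0 : amap b a (((1 - t) • b j₀ + t • b j₁) + (0 : ℝ) • u) =
        (1 - t) • a j₀ + t • a j₁ := by
      rw [zero_smul, add_zero, amap_edge b a hb.ne' hj]
    have h1 := hc.tendsto
    rw [h0] at h1
    exact nhdsWithin_le_nhds (h1 hU)
  have hpos' := eventually_all.2 hpos
  filter_upwards [hpos', hmem] with ε h1 h2
  refine ⟨fun j => ?_, h2, amap_amap b a hb.ne' ha.ne' _⟩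
  rw [N_amap b a hb.ne']
  exact mul_pos (div_pos ha hb) (h1 j)

lemma axis_comb {z₀ z₁ z : ℝ} (h : z₀ < z₁) :
    axis z = (1 - (z - z₀) / (z₁ - z₀)) • axis z₀ + ((z - z₀) / (z₁ - z₀)) • axis z₁ := by
  have h' : z₁ - z₀ ≠ 0 := by linarith [sub_pos.2 h]
  ext k
  fin_cases k <;> simp [axis]
  field_simp
  ring

lemma axis_mem_ray {z : ℝ} (hz : 0 ≤ z) : axis z ∈ Ray := by
  simp [Ray, axis, hz]

lemma eq_axis_of_mem_ray {x : E3} (hx : x ∈ Ray) : x = axis (x 2) := by
  obtain ⟨h0, h1, -⟩ := hx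
  ext k
  fin_cases k <;> simp [axis, h0, h1]

lemma continuous_axis : Continuous axis := by
  have : axis = fun z : ℝ => z • (EuclideanSpace.single 2 1 : E3) := by
    funext z
    ext k
    fin_cases k <;> simp [axis]
  rw [this]
  fun_prop

/-- P3c -/
theorem ray : RayStatement := by
  intro ι C F hFc hdisj h0 hcov Z hZ hcov' x hx U hU hinj
  -- interior points of cells are not on the ray
  have hnotray : ∀ i y, (∀ j, 0 < N (C.a i) j y) → y ∉ Ray := by
    intro i y hy hyr
    have hy2 := eq_axis_of_mem_ray hyr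
    have hycell : y ∈ cell (C.a i) := fun j => (hy j).le
    rcases hyr.2.2.eq_or_lt with h | h
    · rw [← h] at hy2
      have : y = 0 := by
        rw [hy2]
        ext k
        fin_cases k <;> simp [axis]
      exact h0 i (this ▸ hycell)
    · obtain ⟨z₀, z₁, hz0, hz01, hz0', hz1', hB⟩ := hcov _ h
      obtain ⟨i₁, i₂, j₀, j₁, j₀', j₁', u, hne, hj, hj', ha0, ha1, -⟩ := hB.ex
      have hyc : y = (1 - (y 2 - z₀) / (z₁ - z₀)) • C.a i₁ j₀ +
          ((y 2 - z₀) / (z₁ - z₀)) • C.a i₁ j₁ := by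
        rw [ha0, ha1]
        conv_lhs => rw [hy2]
        exact axis_comb hz01
      have hzero : ∀ j, j ≠ j₀ → j ≠ j₁ → N (C.a i₁) j y = 0 := by
        intro j h1 h2
        rw [hyc, N_comb, N_other _ h1, N_other _ h2]
        ring
      have hd : 0 < z₁ - z₀ := sub_pos.2 hz01
      have hyi : y ∈ cell (C.a i₁) := by
        intro j
        by_cases h1 : j = j₀
        · subst h1
          rw [hyc, N_comb, N_self, N_other _ hj]
          have : 0 ≤ 1 - (y 2 - z₀) / (z₁ - z₀) := by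
            rw [sub_nonneg, div_le_one hd]; linarith
          have := mul_nonneg this (C.ha i₁).le
          linarith
        · by_cases h2 : j = j₁
          · subst h2
            rw [hyc, N_comb, N_self, N_other _ h1]
            have : 0 ≤ (y 2 - z₀) / (z₁ - z₀) := div_nonneg (by linarith) hd.le
            have := mul_nonneg this (C.ha i₁).le
            linarith
          · exact (hzero j h1 h2).ge
      have hii := hdisj i i₁ y hy hyi
      subst hii
      obtain ⟨j, hj1, hj2⟩ : ∃ j : Fin 4, j ≠ j₀ ∧ j ≠ j₁ := by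
        clear * - j₀ j₁
        revert j₀ j₁
        decide
      exact (hy j).ne' (hzero j hj1 hj2)
  -- choose a good height
  have hx2 := eq_axis_of_mem_ray hx
  obtain ⟨z, hz0, hzZ, hzU⟩ : ∃ z : ℝ, 0 < z ∧ z ∉ Z ∧ U ∈ 𝓝 (axis z) := by
    have hO : IsOpen (axis ⁻¹' interior U ∩ Ioi 0) :=
      (isOpen_interior.preimage continuous_axis).inter isOpen_Ioi
    have hne : (axis ⁻¹' interior U ∩ Ioi 0).Nonempty := by
      have h1 : axis ⁻¹' interior U ∈ 𝓝 (x 2) := by
        refine (isOpen_interior.preimage continuous_axis).mem_nhds ?_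
        show axis (x 2) ∈ interior U
        rw [← hx2]
        exact mem_interior_iff_mem_nhds.2 hU
      obtain ⟨δ, hδ, hb⟩ := Metric.mem_nhds_iff.1 h1
      refine ⟨x 2 + δ / 2, hb ?_, ?_⟩
      · rw [Metric.mem_ball, Real.dist_eq]
        rw [add_sub_cancel_left, abs_of_pos (by positivity)]
        linarith
      · have : 0 ≤ x 2 := hx.2.2
        show 0 < x 2 + δ / 2
        positivity
    obtain ⟨z, hz, hzZ⟩ := (hZ.dense_compl ℝ).inter_open_nonempty _ hO hne
    exact ⟨z, hz.2, hzZ, mem_interior_iff_mem_nhds.1 hz.1⟩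
  obtain ⟨z₀, z₁, hz0p, hzlt, hzgt, hB⟩ := hcov' z hz0 hzZ
  obtain ⟨i, i', j₀, j₁, j₀', j₁', u, hne, hj, hj', ha0, ha1, ha0', ha1', hb0, hb1, hu, hu'⟩ :=
    hB.ex
  have hd : 0 < z₁ - z₀ := by linarith
  set t := (z - z₀) / (z₁ - z₀) with ht
  have ht0 : 0 < t := div_pos (by linarith) hd
  have ht1 : t < 1 := by rw [ht, div_lt_one hd]; linarith
  have hzc : axis z = (1 - t) • C.a i j₀ + t • C.a i j₁ := by
    rw [ha0, ha1]; exact axis_comb (by linarith)
  have hzc' : axis z = (1 - t) • C.a i' j₀' + t • C.a i' j₁' := by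
    rw [ha0', ha1']; exact axis_comb (by linarith)
  have h1 := side (C.ha i) (C.hb i) hj ht0 ht1 hu (U := U) (hzc ▸ hzU)
  have h2 := side (C.ha i') (C.hb i') hj' ht0 ht1 hu' (U := U) (hzc' ▸ hzU)
  rw [← hb0, ← hb1] at h2
  obtain ⟨ε, ⟨p1, m1, e1⟩, ⟨p2, m2, e2⟩⟩ := (h1.and h2).exists
  set y := ((1 - t) • C.b i j₀ + t • C.b i j₁) + ε • u with hy
  have c1 : amap (C.b i) (C.a i) y ∈ cell (C.a i) := fun j => (p1 j).le
  have c2 : amap (C.b i') (C.a i') y ∈ cell (C.a i') := fun j => (p2 j).le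
  have hF : F (amap (C.b i) (C.a i) y) = F (amap (C.b i') (C.a i') y) := by
    rw [hFc i _ c1, hFc i' _ c2, e1, e2]
  have heq := hinj ⟨m1, hnotray i _ p1⟩ ⟨m2, hnotray i' _ p2⟩ hF
  exact hne (hdisj i i' _ p1 (heq ▸ c2))

end Seg
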